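import Pool.Agent.Lib.H95D.E1

/-!
# H95D, E2: the end game

`G n j l` are integers (coefficients of `q^n z^j b^l`), `P` a finite set of primes larger than `X`. If modulo every `p ∈ P`
all coefficients `q^m`, `m ≤ N₀ ≤ K X`, of `F(q, q^p, b_p)` vanish, while the part `j = 0` is a nonzero constant polynomial in `b`,
then `P` is small.
-/

namespace H95D

open Finset
open scoped Nat

/-- The number of primes larger than `X` dividing a nonzero integer. -/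
theorem card_primes_dvd {X : ℕ} (hX : 2 ≤ X) (P : Finset ℕ) (hP : ∀ p ∈ P, p.Prime ∧ X < p) (Δ : ℤ)
    (hΔ : Δ ≠ 0) (hd : ∀ p ∈ P, (p : ℤ) ∣ Δ) (B : ℕ) (hB : |Δ| ≤ (B : ℤ)) :
    (P.card : ℝ) ≤ Real.log B / Real.log X := by
  have hlX : 0 < Real.log X := Real.log_pos (by exact_mod_cast hX)
  have h1 : (∏ p ∈ P, p) ∣ Δ.natAbs := by
    refine Finset.prod_primes_dvd _ (fun p hp => (hP p hp).1.prime) fun p hp => ?_
    exact Int.natCast_dvd.1 (hd p hp)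
  have h2 : X ^ P.card ≤ ∏ p ∈ P, p := by
    rw [← Finset.prod_const]
    exact Finset.prod_le_prod' fun p hp => (hP p hp).2.le
  have h3 : ∏ p ∈ P, p ≤ Δ.natAbs := Nat.le_of_dvd (Int.natAbs_pos.2 hΔ) h1
  have h4 : Δ.natAbs ≤ B := by
    have : (Δ.natAbs : ℤ) ≤ (B : ℤ) := by rw [Int.natCast_natAbs]; exact hB
    exact_mod_cast this
  have h5 : ((X : ℝ)) ^ P.card ≤ (B : ℝ) := by exact_mod_cast h2.trans (h3.trans h4)
  have hX0 : (0 : ℝ) < X := by exact_mod_cast (by omega : 0 < X)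
  have h6 := Real.log_le_log (pow_pos hX0 _) h5
  rw [Real.log_pow] at h6
  rwa [le_div_iff₀ hlX]

/-- One fibre `j`: outside the divisors of `Δ` the first nonvanishing coefficient is a jump. -/
private theorem first_mem {d N₀ : ℕ} (v : ℕ → Fin d → ℤ) (S : Finset ℕ) (Δ : ℤ)
    (hc : ∀ n ≤ N₀, n ∉ S → ∃ c : ℕ → ℤ, ∀ i, Δ * v n i = ∑ m ∈ S.filter (· < n), c m * v m i)
    {p : ℕ} (hp : p.Prime) (hΔ : ¬ (p : ℤ) ∣ Δ) (β : Fin d → ℤ) {n : ℕ} (hn : n ≤ N₀)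
    (h0 : ¬ (p : ℤ) ∣ ∑ i, v n i * β i) (hlt : ∀ m < n, (p : ℤ) ∣ ∑ i, v m i * β i) : n ∈ S := by
  by_contra hnS
  obtain ⟨c, hc⟩ := hc n hn hnS
  have h1 : Δ * ∑ i, v n i * β i = ∑ m ∈ S.filter (· < n), c m * ∑ i, v m i * β i := by
    rw [mul_sum]
    simp_rw [mul_sum]
    rw [sum_comm]
    refine sum_congr rfl fun i _ => ?_
    rw [← mul_assoc, hc i, sum_mul]
    refine sum_congr rfl fun m _ => ?_
    ring
  have h2 : (p : ℤ) ∣ Δ * ∑ i, v n i * β i := by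
    rw [h1]
    exact dvd_sum fun m hm => (hlt m (mem_filter.1 hm).2).mul_left _
  rcases (Nat.prime_iff_prime_int.1 hp).dvd_or_dvd h2 with h3 | h3
  · exact hΔ h3
  · exact h0 h3

/-- The end game, evaluation vectors `β p : Fin (J+1) → ℤ` arbitrary. -/
private theorem endgame_aux {J K N₀ X M : ℕ} (hX : 2 ≤ X) (hN : N₀ ≤ K * X) (hM1 : 1 ≤ M)
    (v : ℕ → ℕ → Fin (J + 1) → ℤ) (hM : ∀ n ≤ N₀, ∀ j ≤ K, ∀ l, |v j n l| ≤ (M : ℤ))
    (P : Finset ℕ) (hP : ∀ p ∈ P, p.Prime ∧ X < p) (β : ℕ → Fin (J + 1) → ℤ)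
    (hv : ∀ p ∈ P, ∀ m ≤ N₀, (p : ℤ) ∣ ∑ j ∈ range (m / p + 1), ∑ l, v j (m - j * p) l * β p l)
    (n₀ : ℕ) (hn₀ : n₀ ≤ N₀) (A : ℤ) (hA : A ≠ 0) (hAM : |A| ≤ (M : ℤ))
    (h0 : ∀ p ∈ P, ¬ (p : ℤ) ∣ A → ¬ (p : ℤ) ∣ ∑ l, v 0 n₀ l * β p l) :
    (P.card : ℝ) ≤ (((K + 1) * (J + 1)) ^ 2 : ℕ) +
      (K + 2) * (Real.log (((J + 1)! * M ^ (J + 1) : ℕ) : ℝ) / Real.log X) := by
  classical
  have hjump : ∀ j : ℕ, ∃ (S : Finset ℕ) (Δ : ℤ), j ≤ K → (S ⊆ range (N₀ + 1) ∧ S.card ≤ J + 1 ∧ Δ ≠ 0 ∧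
      |Δ| ≤ (((J + 1)! * M ^ (J + 1) : ℕ) : ℤ) ∧
      ∀ n ≤ N₀, n ∉ S → ∃ c : ℕ → ℤ, ∀ i, Δ * v j n i = ∑ m ∈ S.filter (· < n), c m * v j m i) := by
    intro j
    by_cases hj : j ≤ K
    · obtain ⟨S, Δ, h⟩ := jumps N₀ M hM1 (v j) (fun n hn i => hM n hn j hj i)
      exact ⟨S, Δ, fun _ => h⟩
    · exact ⟨∅, 1, fun h => absurd h hj⟩
  choose S Δ hSΔ using hjump
  have hBM : |A| ≤ (((J + 1)! * M ^ (J + 1) : ℕ) : ℤ) := by
    refine hAM.trans ?_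
    have h1 : M ≤ (J + 1)! * M ^ (J + 1) := by
      calc M = M ^ 1 := (pow_one M).symm
        _ ≤ M ^ (J + 1) := Nat.pow_le_pow_right hM1 (by omega)
        _ ≤ (J + 1)! * M ^ (J + 1) := Nat.le_mul_of_pos_left _ (Nat.factorial_pos _)
    exact_mod_cast h1
  -- the bad primes
  set P₀ : Finset ℕ := P.filter fun p => (p : ℤ) ∣ A with hP₀
  set Pj : ℕ → Finset ℕ := fun j => P.filter fun p => (p : ℤ) ∣ Δ j with hPj
  set Q : Finset ℕ := P.filter fun p => ¬ (p : ℤ) ∣ A ∧ ∀ j ≤ K, ¬ (p : ℤ) ∣ Δ j with hQ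
  have hcover : P ⊆ Q ∪ (P₀ ∪ (range (K + 1)).biUnion Pj) := by
    intro p hp
    by_cases h1 : (p : ℤ) ∣ A
    · exact mem_union_right _ (mem_union_left _ (mem_filter.2 ⟨hp, h1⟩))
    by_cases h2 : ∀ j ≤ K, ¬ (p : ℤ) ∣ Δ j
    · exact mem_union_left _ (mem_filter.2 ⟨hp, h1, h2⟩)
    · push Not at h2
      obtain ⟨j, hj, h3⟩ := h2
      exact mem_union_right _ (mem_union_right _ (mem_biUnion.2 ⟨j, mem_range.2 (by omega),
        mem_filter.2 ⟨hp, h3⟩⟩))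
  set R : ℝ := Real.log (((J + 1)! * M ^ (J + 1) : ℕ) : ℝ) / Real.log X with hR
  have hb0 : (P₀.card : ℝ) ≤ R :=
    card_primes_dvd hX P₀ (fun p hp => hP p (mem_filter.1 hp).1) A hA
      (fun p hp => (mem_filter.1 hp).2) _ hBM
  have hbj : ∀ j ∈ range (K + 1), ((Pj j).card : ℝ) ≤ R := by
    intro j hj
    obtain ⟨-, -, h1, h2, -⟩ := hSΔ j (by have := mem_range.1 hj; omega)
    exact card_primes_dvd hX (Pj j) (fun p hp => hP p (mem_filter.1 hp).1) (Δ j) h1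
      (fun p hp => (mem_filter.1 hp).2) _ h2
  -- the good primes
  have hQc : Q.card ≤ ((K + 1) * (J + 1)) ^ 2 := by
    set U : Finset ((_ : ℕ) × ℕ) := (range (K + 1)).sigma S with hU
    have hUc : U.card ≤ (K + 1) * (J + 1) := by
      rw [hU, card_sigma]
      refine (sum_le_card_nsmul _ _ (J + 1) fun j hj => ?_).trans (by simp)
      exact (hSΔ j (by have := mem_range.1 hj; omega)).2.1
    have hkey : ∀ p ∈ Q, ∃ x : ((_ : ℕ) × ℕ) × ((_ : ℕ) × ℕ), x ∈ U ×ˢ U ∧ x.1.1 < x.2.1 ∧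
        x.1.2 + x.1.1 * p = x.2.2 + x.2.1 * p := by
      intro p hp
      obtain ⟨hpP, hpA, hpΔ⟩ := mem_filter.1 hp
      obtain ⟨hpp, hXp⟩ := hP p hpP
      have hppos : 0 < p := hpp.pos
      -- the evaluation
      set f : ℕ → ℕ → ℤ := fun j n => ∑ l, v j n l * β p l with hf
      -- the smallest `m = n + j p` with `p ∤ f j n`
      have hex : ∃ m : ℕ, ∃ j n, n + j * p = m ∧ ¬ (p : ℤ) ∣ f j n := ⟨n₀, 0, n₀, by simp, h0 p hpP hpA⟩
      set m := Nat.find hex with hm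
      have hmin : ∀ j n, n + j * p < m → (p : ℤ) ∣ f j n := by
        intro j n h
        by_contra h2
        exact Nat.find_min hex h ⟨j, n, rfl, h2⟩
      have hmN : m ≤ N₀ := (Nat.find_min' hex ⟨0, n₀, by simp, h0 p hpP hpA⟩).trans hn₀
      have hjK : ∀ j, j * p ≤ m → j ≤ K := by
        intro j hj
        by_contra h
        have h1 : (K + 1) * X < (K + 1) * p := Nat.mul_lt_mul_of_pos_left hXp (by omega)
        have h2 : (K + 1) * p ≤ j * p := Nat.mul_le_mul_right _ (by omega)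
        have h3 : K * X ≤ (K + 1) * X := Nat.mul_le_mul_right _ (by omega)
        omega
      have hmem : ∀ j n, n + j * p = m → ¬ (p : ℤ) ∣ f j n → (⟨j, n⟩ : (_ : ℕ) × ℕ) ∈ U := by
        intro j n h1 h2
        have hj : j ≤ K := hjK j (by omega)
        refine mem_sigma.2 ⟨mem_range.2 (by simpa using Nat.lt_succ_of_le hj), ?_⟩
        refine first_mem (v j) (S j) (Δ j) (hSΔ j hj).2.2.2.2 hpp (hpΔ j hj) (β p) (n := n)
          (by omega) h2 ?_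
        intro n' hn'
        have hn'' : n' < n := hn'
        exact hmin j n' (by omega)
      obtain ⟨j₁, n₁, h1, h2⟩ := Nat.find_spec hex
      rw [← hm] at h1
      -- a second one
      have hj₁ : j₁ ∈ range (m / p + 1) := by
        refine mem_range.2 (Nat.lt_succ_of_le ?_)
        rw [Nat.le_div_iff_mul_le hppos]
        omega
      have hn₁ : m - j₁ * p = n₁ := by omega
      have hsec : ∃ j₂ ∈ range (m / p + 1), j₂ ≠ j₁ ∧ ¬ (p : ℤ) ∣ f j₂ (m - j₂ * p) := by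
        by_contra hno
        push Not at hno
        have h3 := hv p hpP m hmN
        rw [← add_sum_erase _ _ hj₁] at h3
        have h4 : (p : ℤ) ∣ ∑ j ∈ (range (m / p + 1)).erase j₁, ∑ l, v j (m - j * p) l * β p l :=
          dvd_sum fun j hj => hno j (mem_of_mem_erase hj) (ne_of_mem_erase hj)
        have h5 := (dvd_add_left h4).1 h3
        rw [hn₁] at h5
        exact h2 h5
      obtain ⟨j₂, hj₂, hne, h3⟩ := hsec
      have hj₂p : j₂ * p ≤ m := by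
        have := mem_range.1 hj₂
        exact (Nat.le_div_iff_mul_le hppos).1 (by omega)
      have h4 : (m - j₂ * p) + j₂ * p = m := by omega
      have hm1 := hmem j₁ n₁ h1 h2
      have hm2 := hmem j₂ (m - j₂ * p) h4 h3
      rcases lt_or_gt_of_ne hne with h5 | h5
      · exact ⟨(⟨j₂, m - j₂ * p⟩, ⟨j₁, n₁⟩), mem_product.2 ⟨hm2, hm1⟩, h5, by simp only; omega⟩
      · exact ⟨(⟨j₁, n₁⟩, ⟨j₂, m - j₂ * p⟩), mem_product.2 ⟨hm1, hm2⟩, h5, by simp only; omega⟩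
    choose! x hx using hkey
    have hinj : Set.InjOn x Q := by
      intro p hp p' hp' hxx
      obtain ⟨-, h1, h2⟩ := hx p hp
      obtain ⟨-, -, h3⟩ := hx p' hp'
      rw [← hxx] at h3
      obtain ⟨δ, hδ⟩ := Nat.exists_eq_add_of_lt h1
      rw [hδ] at h2 h3
      have h4 : (x p).1.2 = (x p).2.2 + (δ + 1) * p := by
        have : (x p).2.2 + ((x p).1.1 + δ + 1) * p = (x p).2.2 + (δ + 1) * p + (x p).1.1 * p := by ring
        omega
      have h5 : (x p).1.2 = (x p).2.2 + (δ + 1) * p' := by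
        have : (x p).2.2 + ((x p).1.1 + δ + 1) * p' = (x p).2.2 + (δ + 1) * p' + (x p).1.1 * p' := by ring
        omega
      have h6 : (δ + 1) * p = (δ + 1) * p' := by omega
      exact Nat.eq_of_mul_eq_mul_left (by omega) h6
    calc Q.card ≤ (U ×ˢ U).card := card_le_card_of_injOn x (fun p hp => (hx p hp).1) hinj
      _ = U.card * U.card := card_product _ _
      _ ≤ ((K + 1) * (J + 1)) * ((K + 1) * (J + 1)) := Nat.mul_le_mul hUc hUc
      _ = ((K + 1) * (J + 1)) ^ 2 := (sq _).symm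
  have h1 : (P.card : ℝ) ≤ (Q.card : ℝ) + ((P₀.card : ℝ) + ∑ j ∈ range (K + 1), ((Pj j).card : ℝ)) := by
    have h2 : P.card ≤ Q.card + (P₀.card + ∑ j ∈ range (K + 1), (Pj j).card) :=
      (card_le_card hcover).trans ((card_union_le _ _).trans (Nat.add_le_add_left
        ((card_union_le _ _).trans (Nat.add_le_add_left card_biUnion_le _)) _))
    exact_mod_cast h2
  have h2 : ∑ j ∈ range (K + 1), ((Pj j).card : ℝ) ≤ (K + 1) * R := by
    refine (sum_le_card_nsmul _ _ R hbj).trans (le_of_eq ?_)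
    simp
  have h3 : (Q.card : ℝ) ≤ (((K + 1) * (J + 1)) ^ 2 : ℕ) := by exact_mod_cast hQc
  linarith

/-- **The end game.** -/
theorem endgame {J K N₀ X M : ℕ} (hX : 2 ≤ X) (hN : N₀ ≤ K * X) (hM1 : 1 ≤ M)
    (G : ℕ → ℕ → ℕ → ℤ) (hM : ∀ n ≤ N₀, ∀ j ≤ K, ∀ l ≤ J, |G n j l| ≤ (M : ℤ))
    (P : Finset ℕ) (hP : ∀ p ∈ P, p.Prime ∧ X < p) (b : ℕ → ℤ)
    (hv : ∀ p ∈ P, ∀ m ≤ N₀,
      (p : ℤ) ∣ ∑ j ∈ range (m / p + 1), ∑ l ∈ range (J + 1), G (m - j * p) j l * b p ^ l)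
    (h0 : ∃ n ≤ N₀, G n 0 0 ≠ 0) (h0l : ∀ n ≤ N₀, ∀ l, 1 ≤ l → l ≤ J → G n 0 l = 0) :
    (P.card : ℝ) ≤ (((K + 1) * (J + 1)) ^ 2 : ℕ) +
      (K + 2) * (Real.log (((J + 1)! * M ^ (J + 1) : ℕ) : ℝ) / Real.log X) := by
  obtain ⟨n₀, hn₀, hne⟩ := h0
  refine endgame_aux hX hN hM1 (fun j n l => G n j l) (fun n hn j hj l => hM n hn j hj l (by have := l.2; omega))
    P hP (fun p l => b p ^ (l : ℕ)) ?_ n₀ hn₀ (G n₀ 0 0) hne (hM n₀ hn₀ 0 (Nat.zero_le _) 0 (Nat.zero_le _)) ?_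
  · intro p hp m hm
    have h1 := hv p hp m hm
    have h2 : ∑ j ∈ range (m / p + 1), ∑ l ∈ range (J + 1), G (m - j * p) j l * b p ^ l =
        ∑ j ∈ range (m / p + 1), ∑ l : Fin (J + 1), G (m - j * p) j l * b p ^ (l : ℕ) :=
      sum_congr rfl fun j _ => (Fin.sum_univ_eq_sum_range (fun l => G (m - j * p) j l * b p ^ l) _).symm
    rw [h2] at h1
    exact h1
  · intro p hp hA
    have h1 : ∑ l : Fin (J + 1), G n₀ 0 l * b p ^ (l : ℕ) = G n₀ 0 0 := by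
      rw [Fin.sum_univ_succ]
      have h2 : ∑ i : Fin J, G n₀ 0 (i.succ : ℕ) * b p ^ ((i.succ : Fin (J + 1)) : ℕ) = 0 := by
        refine sum_eq_zero fun i _ => ?_
        rw [Fin.val_succ, h0l n₀ hn₀ _ (by omega) (by have := i.2; omega), zero_mul]
      rw [h2]
      simp
    rw [h1]
    exact hA

end H95D
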