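import Pool.Agent.Lib.H95D.E2

/-!
# H95D, E3: the asymptotic contradiction

`endgame_false`: for fixed `J, K` and `ε (K+2) (J+1) ≤ 1` the end game is contradictory for all large `X`, if `P` has
at least `2 X / log X` elements and the coefficients are at most `exp (ε X)`.
`many_good`: there are that many primes in `(X, 12 X]` outside a set with few primes up to `12 X`.
-/

namespace H95D

open Finset Filter Topology
open scoped Nat

theorem endgame_false (J K : ℕ) (ε : ℝ) (hε : ε * (K + 2) * (J + 1) ≤ 1) :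
    ∃ X₀ : ℕ, ∀ X ≥ X₀, ∀ (N₀ M : ℕ) (G : ℕ → ℕ → ℕ → ℤ) (P : Finset ℕ) (b : ℕ → ℤ),
      N₀ ≤ K * X → 1 ≤ M → Real.log M ≤ ε * X →
      (∀ n ≤ N₀, ∀ j ≤ K, ∀ l ≤ J, |G n j l| ≤ (M : ℤ)) →
      (∀ p ∈ P, p.Prime ∧ X < p) →
      (∀ p ∈ P, ∀ m ≤ N₀,
        (p : ℤ) ∣ ∑ j ∈ range (m / p + 1), ∑ l ∈ range (J + 1), G (m - j * p) j l * b p ^ l) →
      (∃ n ≤ N₀, G n 0 0 ≠ 0) → (∀ n ≤ N₀, ∀ l, 1 ≤ l → l ≤ J → G n 0 l = 0) →
      ¬ (2 * (X : ℝ) / Real.log X ≤ (P.card : ℝ)) := by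
  set C : ℝ := ((((K + 1) * (J + 1)) ^ 2 : ℕ) : ℝ) + (K + 2) * Real.log (((J + 1)! : ℕ) : ℝ) with hC
  have hlogo : Tendsto (fun X : ℕ => Real.log (X : ℝ) / (X : ℝ)) atTop (𝓝 0) :=
    (Real.isLittleO_log_id_atTop.tendsto_div_nhds_zero).comp tendsto_natCast_atTop_atTop
  have hev : ∀ᶠ X : ℕ in atTop, Real.log (X : ℝ) / (X : ℝ) < 1 / (C + 1) := by
    refine (tendsto_order.1 hlogo).2 _ ?_
    have : 0 ≤ C := by
      have h1 : 0 ≤ Real.log (((J + 1)! : ℕ) : ℝ) :=
        Real.log_nonneg (by exact_mod_cast Nat.factorial_pos (J + 1))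
      positivity
    positivity
  obtain ⟨X₁, hX₁⟩ := eventually_atTop.1 hev
  refine ⟨max X₁ 3, fun X hX N₀ M G P b hN hM1 hlM hM hP hv h0 h0l hcard => ?_⟩
  have hX1 : X₁ ≤ X := (le_max_left _ _).trans hX
  have hX3 : 3 ≤ X := (le_max_right _ _).trans hX
  have hXr : (3 : ℝ) ≤ X := by exact_mod_cast hX3
  have hlog1 : 1 < Real.log X := by
    rw [Real.lt_log_iff_exp_lt (by linarith)]
    exact lt_of_lt_of_le Real.exp_one_lt_three hXr
  have h1 := endgame (J := J) (K := K) (N₀ := N₀) (X := X) (M := M) (by omega) hN hM1 G hM P hP b hv h0 h0l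
  have hC0 : 0 ≤ C := by
    have h1 : 0 ≤ Real.log (((J + 1)! : ℕ) : ℝ) :=
      Real.log_nonneg (by exact_mod_cast Nat.factorial_pos (J + 1))
    positivity
  have h2 := hX₁ X hX1
  rw [div_lt_div_iff₀ (by linarith) (by linarith), one_mul] at h2
  -- `log X (C+1) < X`
  have h3 : Real.log (((J + 1)! * M ^ (J + 1) : ℕ) : ℝ) =
      Real.log (((J + 1)! : ℕ) : ℝ) + (J + 1) * Real.log M := by
    push_cast
    rw [Real.log_mul (by exact_mod_cast (Nat.factorial_pos (J + 1)).ne')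
      (pow_ne_zero _ (by exact_mod_cast (by omega : M ≠ 0))), Real.log_pow]
    push_cast
    ring
  have h4 : (2 * (X : ℝ) / Real.log X) ≤ (((K + 1) * (J + 1)) ^ 2 : ℕ) +
      (K + 2) * (Real.log (((J + 1)! * M ^ (J + 1) : ℕ) : ℝ) / Real.log X) := hcard.trans h1
  rw [h3, div_le_iff₀ (by linarith), add_mul, mul_assoc, div_mul_cancel₀ _ (by linarith)] at h4
  have h5 : ((K : ℝ) + 2) * ((J + 1) * Real.log M) ≤ X := by
    have h6 : ((K : ℝ) + 2) * ((J + 1) * Real.log M) ≤ (K + 2) * ((J + 1) * (ε * X)) := by gcongr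
    have h7 : ((K : ℝ) + 2) * ((J + 1) * (ε * X)) = (ε * (K + 2) * (J + 1)) * X := by ring
    rw [h7] at h6
    exact h6.trans (mul_le_of_le_one_left (by linarith) hε)
  have h8 : ((K : ℝ) + 2) * Real.log (((J + 1)! : ℕ) : ℝ) ≤
      (K + 2) * Real.log (((J + 1)! : ℕ) : ℝ) * Real.log X := by
    refine le_mul_of_one_le_right ?_ hlog1.le
    have : 0 ≤ Real.log (((J + 1)! : ℕ) : ℝ) :=
      Real.log_nonneg (by exact_mod_cast Nat.factorial_pos (J + 1))
    positivity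
  have h9 : C * Real.log X = ((((K + 1) * (J + 1)) ^ 2 : ℕ) : ℝ) * Real.log X +
      (K + 2) * Real.log (((J + 1)! : ℕ) : ℝ) * Real.log X := by rw [hC]; ring
  nlinarith

/-- Many primes in `(X, 12 X]` outside a thin set. -/
theorem many_good (L : ℕ) (hL : L ≠ 0) : ∃ X₀ : ℕ, ∀ X ≥ X₀, ∀ E : ℕ → Prop, ∀ [DecidablePred E],
    (((range (12 * X + 1)).filter fun p => p.Prime ∧ E p).card : ℝ) * Real.log X ≤ X / 2 →
    2 * (X : ℝ) / Real.log X ≤
      (((Ioc X (12 * X)).filter fun p => p.Prime ∧ ¬ p ∣ L ∧ ¬ E p).card : ℝ) := by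
  -- `θ(12X) - θ(X) ≥ 6 X` for large `X`
  have hsq : Tendsto (fun X : ℕ => Real.log (X : ℝ) / Real.sqrt (X : ℝ)) atTop (𝓝 0) := by
    have h1 := (isLittleO_log_rpow_atTop (show (0 : ℝ) < 1 / 2 by norm_num)).tendsto_div_nhds_zero
    have h2 := h1.comp tendsto_natCast_atTop_atTop
    refine h2.congr fun X => ?_
    simp only [Function.comp_apply, Real.sqrt_eq_rpow]
  have hev : ∀ᶠ X : ℕ in atTop, Real.log (X : ℝ) / Real.sqrt (X : ℝ) < 1 / 100 :=
    (tendsto_order.1 hsq).2 _ (by norm_num)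
  have hlogo : Tendsto (fun X : ℕ => Real.log (X : ℝ) / (X : ℝ)) atTop (𝓝 0) :=
    (Real.isLittleO_log_id_atTop.tendsto_div_nhds_zero).comp tendsto_natCast_atTop_atTop
  have hev2 : ∀ᶠ X : ℕ in atTop, Real.log (X : ℝ) / (X : ℝ) < 1 / (2 * (L + 1)) :=
    (tendsto_order.1 hlogo).2 _ (by positivity)
  obtain ⟨X₁, hX₁⟩ := eventually_atTop.1 (hev.and hev2)
  refine ⟨max X₁ 12, fun X hX E _ hE => ?_⟩
  have hX1 : X₁ ≤ X := (le_max_left _ _).trans hX
  have hX12 : 12 ≤ X := (le_max_right _ _).trans hX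
  have hXr : (12 : ℝ) ≤ X := by exact_mod_cast hX12
  have hX0 : (0 : ℝ) < X := by linarith
  obtain ⟨ha, hb⟩ := hX₁ X hX1
  have hs0 : 0 < Real.sqrt X := Real.sqrt_pos.2 hX0
  have hss : Real.sqrt X * Real.sqrt X = X := Real.mul_self_sqrt hX0.le
  have hlX : 0 < Real.log X := Real.log_pos (by linarith)
  rw [div_lt_iff₀ hs0] at ha
  rw [div_lt_div_iff₀ hX0 (by positivity), one_mul] at hb
  have hl12 : Real.log (12 * X) ≤ 2 * Real.log X := by
    rw [Real.log_mul (by norm_num) hX0.ne', two_mul]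
    have := Real.log_le_log (by norm_num) hXr
    linarith
  have hθ : 6 * (X : ℝ) ≤ Chebyshev.theta ((12 * X : ℕ) : ℝ) - Chebyshev.theta (X : ℝ) := by
    have h1 := Chebyshev.theta_ge (12 * X)
    have h2 := Chebyshev.theta_le_log4_mul_x hX0.le
    have h3 : Real.log 4 = 2 * Real.log 2 := by
      rw [show (4 : ℝ) = 2 ^ 2 by norm_num, Real.log_pow]
      norm_num
    have h4 := Real.log_two_gt_d9
    have h5 : Real.sqrt ((12 * X : ℕ) : ℝ) ≤ 4 * Real.sqrt X := by
      rw [Real.sqrt_le_left (by positivity)]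
      push_cast
      nlinarith
    have h6 : Real.log ((12 * X : ℕ) : ℝ) ≤ 2 * Real.log X := by push_cast; exact hl12
    have h7 : Real.log (((12 * X : ℕ) : ℝ) + 1) ≤ 3 * Real.log X := by
      have h8 : (((12 * X : ℕ) : ℝ) + 1) ≤ (X : ℝ) ^ 3 := by
        push_cast
        have h81 : (144 : ℝ) ≤ X * X := by nlinarith
        have h82 : (X : ℝ) ^ 3 = X * (X * X) := by ring
        rw [h82]
        nlinarith
      have h9 := Real.log_le_log (by positivity) h8
      rw [Real.log_pow] at h9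
      push_cast at h9 ⊢
      exact h9
    have h10 : 0 ≤ Real.log ((12 * X : ℕ) : ℝ) := Real.log_natCast_nonneg _
    have h11 : 2 * Real.sqrt ((12 * X : ℕ) : ℝ) * Real.log ((12 * X : ℕ) : ℝ) ≤
        2 * (4 * Real.sqrt X) * (2 * Real.log X) := by gcongr
    have h12 : 2 * (4 * Real.sqrt X) * (2 * Real.log X) ≤ 16 / 100 * X := by nlinarith
    have h13 : Real.log X ≤ X / 100 := by
      have h14 : (1 : ℝ) ≤ Real.sqrt X := by
        rw [Real.one_le_sqrt]; linarith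
      nlinarith
    push_cast at h1 h7 h11 ⊢
    nlinarith
  -- sums over finsets
  have hθsum : ∀ Y : ℕ, Chebyshev.theta (Y : ℝ) = ∑ p ∈ (range (Y + 1)).filter Nat.Prime, Real.log p := by
    intro Y
    rw [Chebyshev.theta_eq_sum_primesLE_log]
    refine sum_congr ?_ fun _ _ => rfl
    ext p
    simp [Nat.primesLE, Nat.mem_primesBelow]
  have hsplit : Chebyshev.theta ((12 * X : ℕ) : ℝ) - Chebyshev.theta (X : ℝ) =
      ∑ p ∈ (Ioc X (12 * X)).filter Nat.Prime, Real.log p := by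
    rw [hθsum, hθsum, sub_eq_iff_eq_add]
    have h1 : (range (12 * X + 1)).filter Nat.Prime =
        (Ioc X (12 * X)).filter Nat.Prime ∪ (range (X + 1)).filter Nat.Prime := by
      ext p
      simp only [mem_filter, mem_range, mem_union, mem_Ioc]
      constructor
      · rintro ⟨h1, h2⟩
        rcases Nat.lt_or_ge X p with h3 | h3
        · exact Or.inl ⟨⟨h3, by omega⟩, h2⟩
        · exact Or.inr ⟨by omega, h2⟩
      · rintro (⟨⟨h1, h2⟩, h3⟩ | ⟨h1, h2⟩)
        · exact ⟨by omega, h3⟩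
        · exact ⟨by omega, h2⟩
    rw [h1, sum_union]
    rw [disjoint_left]
    intro p hp hp'
    simp only [mem_filter, mem_range, mem_Ioc] at hp hp'
    omega
  set T : Finset ℕ := (Ioc X (12 * X)).filter fun p => p.Prime ∧ ¬ p ∣ L ∧ ¬ E p with hT
  set T₁ : Finset ℕ := (range (12 * X + 1)).filter fun p => p.Prime ∧ E p with hT₁
  set T₂ : Finset ℕ := L.divisors with hT₂
  have hcov : (Ioc X (12 * X)).filter Nat.Prime ⊆ T ∪ (T₁ ∪ T₂) := by
    intro p hp
    simp only [mem_filter, mem_Ioc] at hp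
    by_cases h1 : p ∣ L
    · exact mem_union_right _ (mem_union_right _ (Nat.mem_divisors.2 ⟨h1, hL⟩))
    by_cases h2 : E p
    · exact mem_union_right _ (mem_union_left _ (mem_filter.2 ⟨mem_range.2 (by omega), hp.2, h2⟩))
    · exact mem_union_left _ (mem_filter.2 ⟨mem_Ioc.2 hp.1, hp.2, h1, h2⟩)
  have hcard : ((Ioc X (12 * X)).filter Nat.Prime).card ≤ T.card + (T₁.card + L) := by
    refine (card_le_card hcov).trans ((card_union_le _ _).trans (Nat.add_le_add_left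
      ((card_union_le _ _).trans (Nat.add_le_add_left (Nat.card_divisors_le_self L) _)) _))
  have h1 : 6 * (X : ℝ) ≤ (((Ioc X (12 * X)).filter Nat.Prime).card : ℝ) * (2 * Real.log X) := by
    refine (hθ.trans (le_of_eq hsplit)).trans ?_
    rw [← nsmul_eq_mul]
    refine sum_le_card_nsmul _ _ _ fun p hp => ?_
    simp only [mem_filter, mem_Ioc] at hp
    refine (Real.log_le_log (by exact_mod_cast (by omega : 0 < p)) ?_).trans hl12
    exact_mod_cast hp.1.2
  have h2 : (((Ioc X (12 * X)).filter Nat.Prime).card : ℝ) ≤ T.card + (T₁.card + L) := by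
    exact_mod_cast hcard
  rw [div_le_iff₀ hlX]
  have h3 : (L : ℝ) * Real.log X ≤ X / 2 := by nlinarith
  nlinarith

end H95D
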