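import Pool.Agent.Lib.H95D.E3

/-!
# H95D, E4: the end game at one scale `X`

`E` are the exceptional (ordinary) primes, `L` the level. Everything happens at one scale `X`.
-/

namespace H95D

open Finset Filter Topology
open scoped Nat

theorem endgame_scale (J K L : ℕ) (hL : L ≠ 0) (ε : ℝ) (hε : ε * (K + 2) * (J + 1) ≤ 1) :
    ∃ X₀ : ℕ, ∀ X ≥ X₀, ∀ (E : ℕ → Prop) [DecidablePred E] (N₀ M : ℕ) (G : ℕ → ℕ → ℕ → ℤ)
      (b : ℕ → ℤ),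
      (((range (12 * X + 1)).filter fun p => p.Prime ∧ E p).card : ℝ) * Real.log X ≤ X / 2 →
      N₀ ≤ K * X → 1 ≤ M → Real.log M ≤ ε * X →
      (∀ n ≤ N₀, ∀ j ≤ K, ∀ l ≤ J, |G n j l| ≤ (M : ℤ)) →
      (∀ p : ℕ, p.Prime → X < p → p ≤ 12 * X → ¬ p ∣ L → ¬ E p → ∀ m ≤ N₀,
        (p : ℤ) ∣ ∑ j ∈ range (m / p + 1), ∑ l ∈ range (J + 1), G (m - j * p) j l * b p ^ l) →
      (∃ n ≤ N₀, G n 0 0 ≠ 0) → (∀ n ≤ N₀, ∀ l, 1 ≤ l → l ≤ J → G n 0 l = 0) → False := by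
  obtain ⟨X₁, h₁⟩ := endgame_false J K ε hε
  obtain ⟨X₂, h₂⟩ := many_good L hL
  refine ⟨max X₁ X₂, fun X hX E _ N₀ M G b hE hN hM1 hlM hM hv h0 h0l => ?_⟩
  have hX1 : X₁ ≤ X := (le_max_left _ _).trans hX
  have hX2 : X₂ ≤ X := (le_max_right _ _).trans hX
  refine h₁ X hX1 N₀ M G ((Ioc X (12 * X)).filter fun p => p.Prime ∧ ¬ p ∣ L ∧ ¬ E p) b hN hM1 hlM hM
    (fun p hp => ?_) (fun p hp m hm => ?_) h0 h0l (h₂ X hX2 E hE)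
  · simp only [mem_filter, mem_Ioc] at hp
    exact ⟨hp.2.1, hp.1.1⟩
  · simp only [mem_filter, mem_Ioc] at hp
    exact hv p hp.2.1 hp.1.1 hp.1.2 hp.2.2.1 hp.2.2.2 m hm

end H95D
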